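import Pool.Agent.H68.Hn10

set_option autoImplicit false

namespace Pool.Agent.Results.MP_c8d52e_an.Both

open Pool.Agent.H68.Hn

/-- The Henon map `(x, y) ↦ (y, x + y ^ 2)` has small saddle cycles and small elliptic cycles. -/
theorem result :
    (∀ U ∈ nhds (0 : ℂ × ℂ), ∃ p : ℂ × ℂ, CycleIn U p ∧ IsSaddle p) ∧
    (∀ U ∈ nhds (0 : ℂ × ℂ), ∃ p : ℂ × ℂ, CycleIn U p ∧ IsElliptic p) := by
  constructor <;> intro U hU <;> obtain ⟨d, hd, hU⟩ := Metric.mem_nhds_iff.1 hU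
  · obtain ⟨p, h0, h1, h2, h3⟩ := (main2 (d / 2) (by positivity)).2
    exact ⟨p, ⟨h1, fun k => ⟨hU (mem_ball_zero_iff.2 (by linarith [h2 k])), ne0 p h0 k⟩⟩, h3⟩
  · obtain ⟨p, h0, h1, h2, h3⟩ := (main2 (d / 2) (by positivity)).1
    exact ⟨p, ⟨h1, fun k => ⟨hU (mem_ball_zero_iff.2 (by linarith [h2 k])), ne0 p h0 k⟩⟩, h3⟩

end Pool.Agent.Results.MP_c8d52e_an.Both
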